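import Mathlib

set_option autoImplicit false

/-!
# A matrix with property (H) which is not badly approximable

For `Θ = √2 · 1` in every dimension `n ≥ 2`, and for the skew-symmetric matrix
`Θ = √2 · J` in dimension `2`, the series `g₀` extends to an entire function for all data, while `Θ`
is not badly approximable in the sense of the problem.
-/

open Set Filter Topology
open Complex (I exp)

namespace Pool.Agent.Results.MP_6f2e8a_an.NotNecessary

/-- The Euclidean norm of an integer vector. -/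
noncomputable def nrm {n : ℕ} (k : Fin n → ℤ) : ℝ := Real.sqrt (∑ i, (k i : ℝ) ^ 2)

/-- `f_a(s) = ∑' P(k) ‖k‖^{-s} e^{2π i k·a}`. -/
noncomputable def f {n : ℕ} (P : MvPolynomial (Fin n) ℂ) (a : Fin n → ℝ) (s : ℂ) : ℂ :=
  ∑' k : Fin n → ℤ, if k = 0 then 0 else
    MvPolynomial.eval (fun i => (k i : ℂ)) P * (nrm k : ℂ) ^ (-s) *
      exp (2 * Real.pi * I * (∑ i, (k i : ℝ) * a i : ℝ))

/-- Rapidly decreasing families indexed by `(ℤⁿ)^q`. -/
def RapidlyDecreasing {n q : ℕ} (b : (Fin q → Fin n → ℤ) → ℂ) : Prop :=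
  ∀ m : Fin q → Fin n → ℕ, ∃ C : ℝ, ∀ l, (∏ i, ∏ j, |(l i j : ℝ)| ^ (m i j)) * ‖b l‖ ≤ C

/-- `g₀(s)`, the sum over all `l` with `∑ ε_i l_i ≠ 0`. -/
noncomputable def g0 {n q : ℕ} (Θ : Matrix (Fin n) (Fin n) ℝ) (P : MvPolynomial (Fin n) ℂ)
    (b : (Fin q → Fin n → ℤ) → ℂ) (ε : Fin q → ℤ) (s : ℂ) : ℂ :=
  ∑' l : Fin q → Fin n → ℤ, if ∑ i, ε i • l i = 0 then 0 else
    b l * f P (Θ.mulVec (fun j => (((∑ i, ε i • l i) j : ℤ) : ℝ))) s

/-- Property (H). -/
def PropertyH {n : ℕ} (Θ : Matrix (Fin n) (Fin n) ℝ) : Prop :=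
  ∀ q : ℕ, 1 ≤ q → ∀ (d : ℕ) (P : MvPolynomial (Fin n) ℂ), P.IsHomogeneous d →
    ∀ b : (Fin q → Fin n → ℤ) → ℂ, RapidlyDecreasing b →
    ∀ ε : Fin q → ℤ, (∀ i, ε i = -1 ∨ ε i = 0 ∨ ε i = 1) →
    ∃ G : ℂ → ℂ, Differentiable ℂ G ∧ ∀ s : ℂ, (n : ℝ) + d < s.re → G s = g0 Θ P b ε s

/-- Badly approximable vectors (for some exponent `δ`). -/
def VecBA {n : ℕ} (a : Fin n → ℝ) : Prop :=
  ∃ δ : ℝ, 0 < δ ∧ ∃ c : ℝ, 0 < c ∧ ∀ v : Fin n → ℤ, v ≠ 0 → ∀ m : ℤ,
    c * nrm v ^ (-δ) ≤ |∑ i, (v i : ℝ) * a i - m|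

/-- Badly approximable matrices. -/
def MatBA {n : ℕ} (Θ : Matrix (Fin n) (Fin n) ℝ) : Prop :=
  ∃ u : Fin n → ℤ, VecBA (Θ.transpose.mulVec (fun i => (u i : ℝ)))

/-! ### Finite differences -/

section diff

/-- backward difference of a function of a complex variable -/
def dd (F : ℂ → ℂ) : ℂ → ℂ := fun z => F z - F (z - 1)

lemma dd_bound {F : ℂ → ℂ} {R M ρ : ℝ} (hρ : 0 < ρ)
    (hF : DifferentiableOn ℂ F (Metric.ball 0 R)) (hM : ∀ z ∈ Metric.ball (0 : ℂ) R, ‖F z‖ ≤ M) :
    DifferentiableOn ℂ (dd F) (Metric.ball 0 (R - (ρ + 1))) ∧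
      ∀ z ∈ Metric.ball (0 : ℂ) (R - (ρ + 1)), ‖dd F z‖ ≤ M / ρ := by
  have hsub : ∀ z ∈ Metric.ball (0 : ℂ) (R - (ρ + 1)), z ∈ Metric.ball (0 : ℂ) (R - ρ) ∧
      z - 1 ∈ Metric.ball (0 : ℂ) (R - ρ) := by
    intro z hz
    rw [mem_ball_zero_iff] at hz
    constructor
    · rw [mem_ball_zero_iff]; linarith
    · rw [mem_ball_zero_iff]
      have := norm_sub_le z 1
      rw [norm_one] at this
      linarith
  have hsub2 : Metric.ball (0 : ℂ) (R - ρ) ⊆ Metric.ball 0 R := Metric.ball_subset_ball (by linarith)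
  constructor
  · apply DifferentiableOn.sub
    · exact hF.mono fun z hz => hsub2 (hsub z hz).1
    · exact hF.comp (differentiableOn_id.sub_const 1) fun z hz => hsub2 (hsub z hz).2
  · intro z hz
    have hd : ∀ y ∈ Metric.ball (0 : ℂ) (R - ρ), DifferentiableAt ℂ F y := fun y hy =>
      (hF y (hsub2 hy)).differentiableAt (Metric.isOpen_ball.mem_nhds (hsub2 hy))
    have hb : ∀ y ∈ Metric.ball (0 : ℂ) (R - ρ), ‖deriv F y‖ ≤ M / ρ := by
      intro y hy
      have hcb : Metric.closedBall y ρ ⊆ Metric.ball 0 R := by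
        intro x hx
        rw [mem_ball_zero_iff] at hy ⊢
        rw [Metric.mem_closedBall, dist_eq_norm] at hx
        have : ‖x‖ ≤ ‖x - y‖ + ‖y‖ := by
          have := norm_add_le (x - y) y
          rwa [sub_add_cancel] at this
        linarith
      apply Complex.norm_deriv_le_of_forall_mem_sphere_norm_le hρ
      · apply DifferentiableOn.diffContOnCl
        rw [closure_ball y hρ.ne']
        exact hF.mono hcb
      · intro x hx
        exact hM x (hcb (Metric.sphere_subset_closedBall hx))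
    have := Convex.norm_image_sub_le_of_norm_deriv_le hd hb (convex_ball 0 (R - ρ))
      (hsub z hz).2 (hsub z hz).1
    simpa [dd] using this

lemma dd_iter_bound {F : ℂ → ℂ} {R M ρ : ℝ} (hρ : 0 < ρ)
    (hF : DifferentiableOn ℂ F (Metric.ball 0 R)) (hM : ∀ z ∈ Metric.ball (0 : ℂ) R, ‖F z‖ ≤ M)
    (N : ℕ) :
    DifferentiableOn ℂ (dd^[N] F) (Metric.ball 0 (R - N * (ρ + 1))) ∧
      ∀ z ∈ Metric.ball (0 : ℂ) (R - N * (ρ + 1)), ‖dd^[N] F z‖ ≤ M / ρ ^ N := by
  induction N with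
  | zero =>
    refine ⟨by simpa using hF, fun z hz => ?_⟩
    have hz' : z ∈ Metric.ball (0 : ℂ) R := by simpa using hz
    simpa using hM z hz'
  | succ N ih =>
    have h := dd_bound hρ ih.1 ih.2
    rw [Function.iterate_succ_apply']
    have e1 : R - N * (ρ + 1) - (ρ + 1) = R - ((N + 1 : ℕ) : ℝ) * (ρ + 1) := by
      push_cast; ring
    have e2 : M / ρ ^ N / ρ = M / ρ ^ (N + 1) := by
      rw [div_div, pow_succ]
    rw [e1, e2] at h
    exact h

variable {n : ℕ}

/-- difference in the direction of the `j`-th coordinate -/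
def D (j : Fin n) (g : (Fin n → ℤ) → ℂ) : (Fin n → ℤ) → ℂ :=
  fun k => g k - g (k - Pi.single j 1)

/-- the sum used for trivial bounds -/
def T (j : Fin n) (h : (Fin n → ℤ) → ℝ) : (Fin n → ℤ) → ℝ :=
  fun k => h k + h (k - Pi.single j 1)

lemma D_iter_le (j : Fin n) {g : (Fin n → ℤ) → ℂ} {h : (Fin n → ℤ) → ℝ} (hgh : ∀ k, ‖g k‖ ≤ h k)
    (N : ℕ) : ∀ k, ‖(D j)^[N] g k‖ ≤ (T j)^[N] h k := by
  induction N with
  | zero => exact hgh
  | succ N ih =>
    intro k
    rw [Function.iterate_succ_apply', Function.iterate_succ_apply']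
    exact (norm_sub_le _ _).trans (add_le_add (ih _) (ih _))

/-- comparison of the lattice differences and the complex differences along a line -/
lemma D_iter_eq (j : Fin n) (g : (Fin n → ℤ) → ℂ) (F : ℂ → ℂ) (k : Fin n → ℤ) (N : ℕ) :
    ∀ m : ℤ, (∀ i : ℕ, i ≤ N → g (k + (m - i) • Pi.single j 1) = F (((m - i : ℤ)) : ℂ)) →
      (D j)^[N] g (k + m • Pi.single j 1) = dd^[N] F (m : ℂ) := by
  induction N with
  | zero =>
    intro m h
    simpa using h 0 le_rfl
  | succ N ih =>
    intro m h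
    rw [Function.iterate_succ_apply', Function.iterate_succ_apply']
    unfold D dd
    have h1 := ih m (fun i hi => h i (by omega))
    have h2 := ih (m - 1) (fun i hi => by
      have := h (i + 1) (by omega)
      have e : m - ((i + 1 : ℕ) : ℤ) = m - 1 - (i : ℤ) := by push_cast; ring
      rw [e] at this
      exact this)
    have e3 : k + m • Pi.single j (1 : ℤ) - Pi.single j 1 = k + (m - 1) • Pi.single j (1 : ℤ) := by
      rw [sub_smul, one_smul, add_sub_assoc]
    rw [e3]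
    have e4 : ((m : ℂ) - 1) = (((m - 1 : ℤ)) : ℂ) := by push_cast; ring
    rw [e4]
    change (D j)^[N] g _ - (D j)^[N] g _ = dd^[N] F _ - dd^[N] F _
    rw [h1, h2]

end diff


/-! ### Summation by parts -/

section parts

variable {n : ℕ}

/-- `e(k·a)` -/
noncomputable def ee (a : Fin n → ℝ) (k : Fin n → ℤ) : ℂ :=
  exp (2 * Real.pi * I * (∑ i, (k i : ℝ) * a i : ℝ))

lemma norm_ee (a : Fin n → ℝ) (k : Fin n → ℤ) : ‖ee a k‖ = 1 := by
  unfold ee
  rw [Complex.norm_exp]
  simp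

lemma ee_sub (a : Fin n → ℝ) (j : Fin n) (k : Fin n → ℤ) :
    ee a k = exp (2 * Real.pi * I * (a j : ℝ)) * ee a (k - Pi.single j 1) := by
  unfold ee
  rw [← Complex.exp_add]
  congr 1
  have h : ∑ i, (k i : ℝ) * a i =
      a j + ∑ i, (((k - Pi.single j 1 : Fin n → ℤ) i : ℤ) : ℝ) * a i := by
    have h1 : ∑ i, (((k - Pi.single j 1 : Fin n → ℤ) i : ℤ) : ℝ) * a i =
        ∑ i, (k i : ℝ) * a i - ∑ i, (((Pi.single j (1 : ℤ) : Fin n → ℤ) i : ℤ) : ℝ) * a i := by
      rw [← Finset.sum_sub_distrib]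
      apply Finset.sum_congr rfl
      intro i _
      rw [Pi.sub_apply]
      push_cast
      ring
    have h2 : ∑ i, (((Pi.single j (1 : ℤ) : Fin n → ℤ) i : ℤ) : ℝ) * a i = a j := by
      rw [Finset.sum_eq_single j]
      · simp
      · intro i _ hi
        rw [Pi.single_eq_of_ne hi]
        simp
      · intro h
        exact absurd (Finset.mem_univ j) h
    rw [h1, h2]
    ring
  rw [h]
  push_cast
  ring

lemma summable_mul_ee {g : (Fin n → ℤ) → ℂ} (hg : Summable g) (a : Fin n → ℝ) :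
    Summable fun k => g k * ee a k := by
  refine Summable.of_norm_bounded hg.norm fun k => ?_
  rw [norm_mul, norm_ee, mul_one]

lemma shift_summable {E : Type*} [NormedAddCommGroup E] {h : (Fin n → ℤ) → E} (hh : Summable h)
    (v : Fin n → ℤ) : Summable fun k => h (k - v) :=
  ((Equiv.subRight v).summable_iff (f := h)).2 hh

lemma shift_tsum {E : Type*} [NormedAddCommGroup E] (h : (Fin n → ℤ) → E)
    (v : Fin n → ℤ) : ∑' k, h (k - v) = ∑' k, h k :=
  (Equiv.subRight v).tsum_eq h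

lemma sbp (j : Fin n) (a : Fin n → ℝ) {g : (Fin n → ℤ) → ℂ} (hg : Summable g) :
    Summable (D j g) ∧ ∑' k, D j g k * ee a k =
      (1 - exp (2 * Real.pi * I * (a j : ℝ))) * ∑' k, g k * ee a k := by
  have hs : Summable fun k => g (k - Pi.single j 1) := shift_summable hg (Pi.single j 1)
  refine ⟨hg.sub hs, ?_⟩
  have h1 : ∀ k, D j g k * ee a k = g k * ee a k -
      exp (2 * Real.pi * I * (a j : ℝ)) * (g (k - Pi.single j 1) * ee a (k - Pi.single j 1)) := by
    intro k
    unfold D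
    rw [sub_mul]
    nth_rewrite 2 [ee_sub a j k]
    ring
  simp only [h1]
  have hsum := summable_mul_ee hg a
  have hsum2 : Summable fun k => g (k - Pi.single j 1) * ee a (k - Pi.single j 1) :=
    shift_summable hsum (Pi.single j 1)
  rw [hsum.tsum_sub (hsum2.mul_left _), tsum_mul_left]
  have h2 : ∑' k, g (k - Pi.single j 1) * ee a (k - Pi.single j 1) = ∑' k, g k * ee a k :=
    shift_tsum (fun k => g k * ee a k) (Pi.single j 1)
  rw [h2]
  ring

lemma sbp_iter (j : Fin n) (a : Fin n → ℝ) {g : (Fin n → ℤ) → ℂ} (hg : Summable g) (N : ℕ) :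
    Summable ((D j)^[N] g) ∧ ∑' k, (D j)^[N] g k * ee a k =
      (1 - exp (2 * Real.pi * I * (a j : ℝ))) ^ N * ∑' k, g k * ee a k := by
  induction N with
  | zero => simpa using hg
  | succ N ih =>
    rw [Function.iterate_succ_apply']
    obtain ⟨h1, h2⟩ := sbp j a ih.1
    refine ⟨h1, ?_⟩
    rw [h2, ih.2, pow_succ]
    ring

end parts

/-! ### Norms and summability -/

section norms

variable {n : ℕ}

lemma nrm_nonneg (k : Fin n → ℤ) : 0 ≤ nrm k := Real.sqrt_nonneg _

lemma nrm_sq (k : Fin n → ℤ) : nrm k ^ 2 = ∑ i, (k i : ℝ) ^ 2 :=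
  Real.sq_sqrt (Finset.sum_nonneg fun i _ => sq_nonneg _)

lemma abs_le_nrm (k : Fin n → ℤ) (i : Fin n) : |(k i : ℝ)| ≤ nrm k := by
  rw [← Real.sqrt_sq_eq_abs]
  apply Real.sqrt_le_sqrt
  exact Finset.single_le_sum (f := fun i => (k i : ℝ) ^ 2) (fun _ _ => sq_nonneg _)
    (Finset.mem_univ i)

lemma one_le_nrm {k : Fin n → ℤ} (hk : k ≠ 0) : 1 ≤ nrm k := by
  obtain ⟨i, hi⟩ := Function.ne_iff.1 hk
  refine le_trans ?_ (abs_le_nrm k i)
  have : (1 : ℤ) ≤ |k i| := Int.one_le_abs hi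
  exact_mod_cast this

lemma nrm_le_sum (k : Fin n → ℤ) : nrm k ≤ ∑ i, |(k i : ℝ)| := by
  have h0 : 0 ≤ ∑ i, |(k i : ℝ)| := Finset.sum_nonneg fun i _ => abs_nonneg _
  rw [nrm, Real.sqrt_le_left h0]
  calc ∑ i, (k i : ℝ) ^ 2 = ∑ i, |(k i : ℝ)| * |(k i : ℝ)| := by
        apply Finset.sum_congr rfl
        intro i _
        rw [abs_mul_abs_self, sq]
    _ ≤ ∑ i, |(k i : ℝ)| * ∑ i, |(k i : ℝ)| := by
        apply Finset.sum_le_sum
        intro i _
        apply mul_le_mul_of_nonneg_left _ (abs_nonneg _)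
        exact Finset.single_le_sum (f := fun i => |(k i : ℝ)|) (fun i _ => abs_nonneg _)
          (Finset.mem_univ i)
    _ = (∑ i, |(k i : ℝ)|) ^ 2 := by rw [← Finset.sum_mul, sq]

lemma summable_pi {κ : Type*} (u : κ → ℝ) (hu : Summable u) (h0 : ∀ x, 0 ≤ u x) (q : ℕ) :
    Summable fun l : Fin q → κ => ∏ i, u (l i) := by
  induction q with
  | zero => exact (hasSum_fintype _).summable
  | succ q ih =>
    have hg' : ∀ l : Fin q → κ, 0 ≤ ∏ i, u (l i) := fun l =>
      Finset.prod_nonneg fun i _ => h0 (l i)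
    have h1 : Summable fun x : κ × (Fin q → κ) => u x.1 * ∏ i, u (x.2 i) :=
      Summable.mul_of_nonneg (f := u) (g := fun l : Fin q → κ => ∏ i, u (l i)) hu ih h0 hg'
    have h2 := ((Fin.consEquiv (fun _ : Fin (q + 1) => κ)).symm.summable_iff
      (f := fun x : κ × (Fin q → κ) => u x.1 * ∏ i, u (x.2 i))).2 h1
    refine h2.congr fun l => ?_
    rw [Fin.prod_univ_succ]
    rfl

lemma summable_int {t : ℝ} (ht : 1 < t) : Summable fun m : ℤ => (1 + |(m : ℝ)|) ^ (-t) := by
  have h1 := Real.summable_abs_int_rpow ht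
  have h2 : Summable fun m : ℤ => if m = 0 then (1 : ℝ) else 0 :=
    summable_of_hasFiniteSupport ((Set.finite_singleton (0 : ℤ)).subset (by
      intro m hm
      by_contra h
      apply hm
      simp only [Set.mem_singleton_iff] at h
      simp [h]))
  refine Summable.of_nonneg_of_le (fun m => by positivity) (fun m => ?_) (h1.add h2)
  by_cases hm : m = 0
  · subst hm
    simp only [Int.cast_zero, abs_zero, add_zero, Real.one_rpow, if_true]
    have : (0 : ℝ) ≤ 0 ^ (-t) := Real.rpow_nonneg le_rfl _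
    linarith
  · rw [if_neg hm, add_zero]
    have h3 : (0 : ℝ) < |(m : ℝ)| := by
      rw [abs_pos]
      exact_mod_cast hm
    apply Real.rpow_le_rpow_of_nonpos h3 (by linarith) (by linarith)

lemma summable_nrm (hn : 1 ≤ n) {r : ℝ} (hr : (n : ℝ) < r) :
    Summable fun k : Fin n → ℤ => if k = 0 then (0 : ℝ) else nrm k ^ (-r) := by
  have hn' : (0 : ℝ) < n := by exact_mod_cast hn
  have ht : 1 < r / n := by rwa [one_lt_div hn']
  have h1 := (summable_pi _ (summable_int ht) (fun m => by positivity) n).mul_left (2 ^ r)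
  refine Summable.of_nonneg_of_le (fun k => ?_) (fun k => ?_) h1
  · split_ifs
    · exact le_rfl
    · exact Real.rpow_nonneg (nrm_nonneg k) _
  · split_ifs with hk
    · positivity
    · have hk1 := one_le_nrm hk
      have hk0 : 0 < nrm k := by linarith
      have hr0 : 0 < r := by linarith
      have h2 : ∏ i, (1 + |(k i : ℝ)|) ^ (r / n) ≤ (2 * nrm k) ^ r := by
        calc ∏ i, (1 + |(k i : ℝ)|) ^ (r / n) ≤ ∏ _i : Fin n, (2 * nrm k) ^ (r / n) := by
              apply Finset.prod_le_prod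
              · intro i _; positivity
              · intro i _
                apply Real.rpow_le_rpow (by positivity) _ (by positivity)
                have := abs_le_nrm k i
                linarith
          _ = (2 * nrm k) ^ r := by
              rw [Finset.prod_const, Finset.card_univ, Fintype.card_fin, ← Real.rpow_natCast,
                ← Real.rpow_mul (by positivity)]
              congr 1
              field_simp
      have h3 : ∏ i, (1 + |(k i : ℝ)|) ^ (-(r / n)) = (∏ i, (1 + |(k i : ℝ)|) ^ (r / n))⁻¹ := by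
        rw [← Finset.prod_inv_distrib]
        apply Finset.prod_congr rfl
        intro i _
        rw [Real.rpow_neg (by positivity)]
      rw [h3]
      have h4 : 0 < ∏ i, (1 + |(k i : ℝ)|) ^ (r / n) := Finset.prod_pos fun i _ => by positivity
      rw [Real.mul_rpow (by norm_num) hk0.le] at h2
      rw [Real.rpow_neg hk0.le, ← div_eq_mul_inv, le_div_iff₀ h4]
      have h5 : 0 < nrm k ^ r := Real.rpow_pos_of_pos hk0 _
      calc (nrm k ^ r)⁻¹ * ∏ i, (1 + |(k i : ℝ)|) ^ (r / n)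
          ≤ (nrm k ^ r)⁻¹ * (2 ^ r * nrm k ^ r) := mul_le_mul_of_nonneg_left h2 (by positivity)
        _ = 2 ^ r := by field_simp

lemma finite_nrm_le (R : ℝ) : {k : Fin n → ℤ | nrm k ≤ R}.Finite := by
  have h1 : (Set.pi Set.univ (fun _ : Fin n => Set.Icc (-⌈|R|⌉) (⌈|R|⌉))).Finite :=
    Set.Finite.pi' (fun _ => Set.finite_Icc _ _) |>.subset (by
      intro k hk i
      exact hk i (Set.mem_univ i))
  refine h1.subset fun k hk i _ => ?_
  have h2 := abs_le_nrm k i
  have h3 : |(k i : ℝ)| ≤ ⌈|R|⌉ := by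
    have hk' : nrm k ≤ R := hk
    exact (h2.trans (hk'.trans (le_abs_self R))).trans (Int.le_ceil _)
  have h4 : |k i| ≤ ⌈|R|⌉ := by exact_mod_cast h3
  rw [abs_le] at h4
  exact h4

end norms


/-! ### The main estimate -/

section estimate

variable {n : ℕ}

/-- `P(k) ‖k‖^{-s}` for `k ≠ 0`, and `0` for `k = 0` -/
noncomputable def gs (P : MvPolynomial (Fin n) ℂ) (s : ℂ) (k : Fin n → ℤ) : ℂ :=
  if k = 0 then 0 else MvPolynomial.eval (fun i => (k i : ℂ)) P * (nrm k : ℂ) ^ (-s)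

lemma poly_bound (P : MvPolynomial (Fin n) ℂ) {d : ℕ} (hP : P.IsHomogeneous d) :
    ∃ C : ℝ, 0 ≤ C ∧ ∀ (x : Fin n → ℂ) (ρ : ℝ), 0 ≤ ρ → (∀ i, ‖x i‖ ≤ ρ) →
      ‖MvPolynomial.eval x P‖ ≤ C * ρ ^ d := by
  refine ⟨∑ m ∈ P.support, ‖P.coeff m‖, Finset.sum_nonneg fun _ _ => norm_nonneg _, ?_⟩
  intro x ρ hρ hx
  rw [MvPolynomial.eval_eq', Finset.sum_mul]
  refine (norm_sum_le _ _).trans (Finset.sum_le_sum fun m hm => ?_)
  rw [norm_mul]
  apply mul_le_mul_of_nonneg_left _ (norm_nonneg _)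
  rw [norm_prod]
  have hdeg : ∑ i, m i = d := by
    have h1 := hP (MvPolynomial.mem_support_iff.1 hm)
    rw [← h1]
    simp [Finsupp.weight_apply, Finsupp.sum_fintype]
  calc ∏ i, ‖x i ^ m i‖ ≤ ∏ i, ρ ^ m i := by
        apply Finset.prod_le_prod
        · intro i _; positivity
        · intro i _
          rw [norm_pow]
          exact pow_le_pow_left₀ (norm_nonneg _) (hx i) _
    _ = ρ ^ d := by rw [Finset.prod_pow_eq_pow_sum, hdeg]

lemma cpow_bound {q s : ℂ} {X : ℝ} (hX : 0 < X) (hq : ‖q - X‖ ≤ 9 / 16 * X) :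
    0 < q.re ∧ ‖q ^ (-s / 2)‖ ≤ X ^ (-s.re / 2) * Real.exp (4 * ‖s‖) := by
  have h1 : 7 / 16 * X ≤ q.re := by
    have h2 := Complex.abs_re_le_norm (q - X)
    rw [Complex.sub_re, Complex.ofReal_re] at h2
    have h3 := (abs_le.1 (h2.trans hq)).1
    linarith
  have hre : 0 < q.re := by linarith
  refine ⟨hre, ?_⟩
  have hq0 : q ≠ 0 := fun h => by rw [h] at hre; simp at hre
  have hn1 : 7 / 16 * X ≤ ‖q‖ := h1.trans (Complex.re_le_norm q)
  have hn2 : ‖q‖ ≤ 25 / 16 * X := by
    have h2 : ‖q‖ ≤ ‖q - X‖ + ‖(X : ℂ)‖ := by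
      have := norm_add_le (q - X) (X : ℂ)
      rwa [sub_add_cancel] at this
    rw [Complex.norm_real, Real.norm_eq_abs, abs_of_pos hX] at h2
    linarith
  have hnpos : 0 < ‖q‖ := norm_pos_iff.2 hq0
  rw [Complex.norm_cpow_of_ne_zero hq0]
  have e1 : (-s / 2).re = -s.re / 2 := by simp
  have e2 : (-s / 2).im = -s.im / 2 := by simp
  rw [e1, e2]
  have h4 : ‖q‖ ^ (-s.re / 2) = X ^ (-s.re / 2) * (‖q‖ / X) ^ (-s.re / 2) := by
    rw [← Real.mul_rpow hX.le (by positivity)]
    congr 1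
    field_simp
  set t := ‖q‖ / X with ht
  have ht0 : 0 < t := by positivity
  have ht1 : 1 / 4 ≤ t := by
    rw [ht, le_div_iff₀ hX]; linarith
  have ht2 : t ≤ 4 := by
    rw [ht, div_le_iff₀ hX]; linarith
  have hlog : |Real.log t| ≤ 3 := by
    rw [abs_le]
    constructor
    · have h5 := Real.log_le_sub_one_of_pos (show 0 < t⁻¹ by positivity)
      rw [Real.log_inv] at h5
      have h6 : t⁻¹ ≤ 4 := by
        rw [inv_le_comm₀ ht0 (by norm_num)]
        linarith
      linarith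
    · have h5 := Real.log_le_sub_one_of_pos ht0
      linarith
  have hre' : |s.re| ≤ ‖s‖ := Complex.abs_re_le_norm s
  have him' : |s.im| ≤ ‖s‖ := Complex.abs_im_le_norm s
  have h7 : t ^ (-s.re / 2) ≤ Real.exp (3 / 2 * ‖s‖) := by
    rw [Real.rpow_def_of_pos ht0]
    apply Real.exp_le_exp.2
    have h8 : Real.log t * (-s.re / 2) ≤ |Real.log t| * (|s.re| / 2) := by
      have h9 := le_abs_self (Real.log t * (-s.re / 2))
      rw [abs_mul, abs_div, abs_neg, abs_two] at h9
      exact h9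
    have h10 : |Real.log t| * (|s.re| / 2) ≤ 3 * (‖s‖ / 2) :=
      mul_le_mul hlog (by linarith) (by positivity) (by norm_num)
    linarith
  have h8 : (Real.exp (q.arg * (-s.im / 2)))⁻¹ ≤ Real.exp (2 * ‖s‖) := by
    rw [← Real.exp_neg]
    apply Real.exp_le_exp.2
    have h9 := le_abs_self (-(q.arg * (-s.im / 2)))
    rw [abs_neg, abs_mul, abs_div, abs_neg, abs_two] at h9
    have h10 : |q.arg| ≤ Real.pi := Complex.abs_arg_le_pi q
    have h11 : |q.arg| * (|s.im| / 2) ≤ 4 * (‖s‖ / 2) :=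
      mul_le_mul (h10.trans Real.pi_le_four) (by linarith) (by positivity) (by norm_num)
    linarith
  rw [h4, div_eq_mul_inv, mul_assoc]
  apply mul_le_mul_of_nonneg_left _ (Real.rpow_nonneg hX.le _)
  calc t ^ (-s.re / 2) * (Real.exp (q.arg * (-s.im / 2)))⁻¹
      ≤ Real.exp (3 / 2 * ‖s‖) * Real.exp (2 * ‖s‖) :=
        mul_le_mul h7 h8 (by positivity) (by positivity)
    _ = Real.exp (3 / 2 * ‖s‖ + 2 * ‖s‖) := (Real.exp_add _ _).symm
    _ ≤ Real.exp (4 * ‖s‖) := by
        apply Real.exp_le_exp.2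
        have := norm_nonneg s
        linarith

/-- the function of a complex variable interpolating `gs` along a line -/
noncomputable def lineF (P : MvPolynomial (Fin n) ℂ) (s : ℂ) (k : Fin n → ℤ) (j : Fin n)
    (z : ℂ) : ℂ :=
  MvPolynomial.eval (fun i => (k i : ℂ) + if i = j then z else 0) P *
    (((nrm k ^ 2 : ℝ) : ℂ) + 2 * z * (k j : ℂ) + z ^ 2) ^ (-s / 2)

lemma cpow_sq {x : ℝ} (hx : 0 < x) (s : ℂ) : (x : ℂ) ^ (-s) = ((x ^ 2 : ℝ) : ℂ) ^ (-s / 2) := by
  have h1 : (x : ℂ) ≠ 0 := by exact_mod_cast hx.ne'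
  have h2 : ((x ^ 2 : ℝ) : ℂ) ≠ 0 := by
    have : x ^ 2 ≠ 0 := by positivity
    exact_mod_cast this
  rw [Complex.cpow_def_of_ne_zero h1, Complex.cpow_def_of_ne_zero h2,
    ← Complex.ofReal_log hx.le, ← Complex.ofReal_log (by positivity), Real.log_pow]
  congr 1
  push_cast
  ring

lemma gs_line (P : MvPolynomial (Fin n) ℂ) (s : ℂ) (k : Fin n → ℤ) (j : Fin n) (m : ℤ)
    (h : k + m • Pi.single j 1 ≠ 0) :
    gs P s (k + m • Pi.single j 1) = lineF P s k j (m : ℂ) := by
  unfold gs lineF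
  rw [if_neg h]
  have hpos : 0 < nrm (k + m • Pi.single j (1 : ℤ)) := by
    have := one_le_nrm h
    linarith
  have hcoord : ∀ i, (k + m • Pi.single j (1 : ℤ) : Fin n → ℤ) i = k i + if i = j then m else 0 := by
    intro i
    by_cases hij : i = j
    · subst hij
      simp
    · simp [hij]
  have hsq : nrm (k + m • Pi.single j (1 : ℤ)) ^ 2 = nrm k ^ 2 + 2 * m * k j + m ^ 2 := by
    rw [nrm_sq, nrm_sq]
    have e1 : ∀ i, (((k + m • Pi.single j (1 : ℤ) : Fin n → ℤ) i : ℤ) : ℝ) ^ 2 =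
        (k i : ℝ) ^ 2 + if i = j then (2 * m * k j + m ^ 2 : ℝ) else 0 := by
      intro i
      rw [hcoord]
      by_cases hij : i = j
      · subst hij
        simp only [if_true]
        push_cast
        ring
      · simp [hij]
    simp only [e1]
    rw [Finset.sum_add_distrib, Finset.sum_ite_eq']
    simp
    ring
  rw [cpow_sq hpos, hsq]
  congr 1
  · congr 1
    congr 1
    funext i
    rw [hcoord]
    by_cases hij : i = j
    · simp [hij]
    · simp [hij]
  · congr 1
    push_cast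
    ring

lemma line_bound (P : MvPolynomial (Fin n) ℂ) {d : ℕ} {C : ℝ} (hC : 0 ≤ C)
    (hP : ∀ (x : Fin n → ℂ) (ρ : ℝ), 0 ≤ ρ → (∀ i, ‖x i‖ ≤ ρ) →
      ‖MvPolynomial.eval x P‖ ≤ C * ρ ^ d) (s : ℂ) (k : Fin n → ℤ) (j : Fin n)
    (hk : 0 < nrm k) :
    DifferentiableOn ℂ (lineF P s k j) (Metric.ball 0 (nrm k / 4)) ∧
      ∀ z ∈ Metric.ball (0 : ℂ) (nrm k / 4), ‖lineF P s k j z‖ ≤
        C * (2 * nrm k) ^ d * (nrm k ^ (-s.re) * Real.exp (4 * ‖s‖)) := by
  set K := nrm k with hK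
  have hK2 : 0 < K ^ 2 := by positivity
  have hkj : ‖(k j : ℂ)‖ ≤ K := by
    rw [Complex.norm_intCast]
    exact abs_le_nrm k j
  have hq : ∀ z ∈ Metric.ball (0 : ℂ) (K / 4),
      ‖(((K ^ 2 : ℝ) : ℂ) + 2 * z * (k j : ℂ) + z ^ 2) - ((K ^ 2 : ℝ) : ℂ)‖ ≤ 9 / 16 * K ^ 2 := by
    intro z hz
    rw [mem_ball_zero_iff] at hz
    have e1 : (((K ^ 2 : ℝ) : ℂ) + 2 * z * (k j : ℂ) + z ^ 2) - ((K ^ 2 : ℝ) : ℂ) =
        2 * z * (k j : ℂ) + z ^ 2 := by ring
    rw [e1]
    calc ‖2 * z * (k j : ℂ) + z ^ 2‖ ≤ ‖2 * z * (k j : ℂ)‖ + ‖z ^ 2‖ := norm_add_le _ _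
      _ = 2 * ‖z‖ * ‖(k j : ℂ)‖ + ‖z‖ ^ 2 := by
          rw [norm_mul, norm_mul, norm_pow, Complex.norm_ofNat]
      _ ≤ 2 * (K / 4) * K + (K / 4) ^ 2 := by
          have h0 := norm_nonneg z
          apply add_le_add
          · apply mul_le_mul _ hkj (norm_nonneg _) (by positivity)
            linarith
          · exact pow_le_pow_left₀ h0 hz.le 2
      _ = 9 / 16 * K ^ 2 := by ring
  constructor
  · unfold lineF
    apply DifferentiableOn.mul
    · have : Differentiable ℂ fun z : ℂ =>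
          MvPolynomial.eval (fun i => (k i : ℂ) + if i = j then z else 0) P := by
        have hi : ∀ i : Fin n, Differentiable ℂ fun z : ℂ =>
            ((k i : ℂ) + if i = j then z else 0) := by
          intro i
          by_cases hij : i = j
          · simp only [hij, if_true]
            exact (differentiable_const _).add differentiable_id
          · simp only [hij, if_false]
            exact differentiable_const _
        simp only [MvPolynomial.eval_eq']
        apply Differentiable.fun_sum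
        intro m _
        apply Differentiable.mul (differentiable_const _)
        apply Differentiable.fun_finsetProd
        intro i _
        exact (hi i).pow _
      exact this.differentiableOn
    · intro z hz
      have h1 := (cpow_bound (s := s) hK2 (hq z hz)).1
      apply DifferentiableAt.differentiableWithinAt
      apply DifferentiableAt.cpow_const
      · fun_prop
      · left
        exact h1
  · intro z hz
    have h1 := (cpow_bound (s := s) hK2 (hq z hz)).2
    unfold lineF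
    rw [norm_mul]
    have h2 : (K ^ 2) ^ (-s.re / 2) = K ^ (-s.re) := by
      rw [← Real.rpow_natCast, ← Real.rpow_mul hk.le]
      congr 1
      push_cast
      ring
    rw [h2] at h1
    apply mul_le_mul _ h1 (norm_nonneg _) (by positivity)
    apply hP _ _ (by positivity)
    intro i
    rw [mem_ball_zero_iff] at hz
    have hki : ‖(k i : ℂ)‖ ≤ K := by
      rw [Complex.norm_intCast]
      exact abs_le_nrm k i
    have h3 : ‖(if i = j then z else 0 : ℂ)‖ ≤ K / 4 := by
      split_ifs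
      · exact hz.le
      · simp; positivity
    have := norm_add_le (k i : ℂ) (if i = j then z else 0)
    linarith

lemma main_est (P : MvPolynomial (Fin n) ℂ) {d : ℕ} (hP : P.IsHomogeneous d) (N : ℕ)
    (σ B : ℝ) : ∃ C : ℝ, 0 ≤ C ∧ ∀ s : ℂ, σ ≤ s.re → ‖s‖ ≤ B → ∀ (j : Fin n) (k : Fin n → ℤ),
      8 * ((N : ℝ) + 1) < nrm k → ‖(D j)^[N] (gs P s) k‖ ≤ C * nrm k ^ ((d : ℝ) - σ - N) := by
  obtain ⟨CP, hCP, hb⟩ := poly_bound P hP
  refine ⟨CP * 2 ^ d * Real.exp (4 * B) * (8 * ((N : ℝ) + 1)) ^ N, by positivity, ?_⟩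
  intro s hs hsB j k hk
  set K := nrm k with hK
  have hN0 : (0 : ℝ) ≤ N := by positivity
  have hK8 : 8 < K := by linarith
  have hK0 : 0 < K := by linarith
  set ρ := K / (8 * ((N : ℝ) + 1)) with hρ
  have hρ0 : 0 < ρ := by positivity
  obtain ⟨h1, h2⟩ := line_bound P hCP hb s k j hK0
  obtain ⟨-, h4⟩ := dd_iter_bound hρ0 h1 h2 N
  have hmem : (0 : ℂ) ∈ Metric.ball (0 : ℂ) (nrm k / 4 - N * (ρ + 1)) := by
    apply Metric.mem_ball_self
    have h5 : (N : ℝ) * ρ ≤ K / 8 := by
      rw [hρ, mul_div_assoc', div_le_div_iff₀ (by positivity) (by norm_num)]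
      nlinarith
    rw [← hK]
    nlinarith
  have h6 := h4 0 hmem
  have h7 : (D j)^[N] (gs P s) (k + (0 : ℤ) • Pi.single j 1) = dd^[N] (lineF P s k j) ((0 : ℤ) : ℂ) := by
    apply D_iter_eq
    intro i hi
    apply gs_line
    intro h0
    have h8 : k = (i : ℤ) • Pi.single j (1 : ℤ) := by
      have h9 : k + (0 - (i : ℤ)) • Pi.single j (1 : ℤ) = 0 := h0
      rw [zero_sub, neg_smul, ← sub_eq_add_neg, sub_eq_zero] at h9
      exact h9
    have h9 : nrm k ≤ i := by
      refine (nrm_le_sum k).trans ?_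
      rw [Finset.sum_eq_single j]
      · rw [h8]; simp
      · intro b _ hbj
        rw [h8]; simp [hbj]
      · intro h
        exact absurd (Finset.mem_univ j) h
    have h10 : (i : ℝ) ≤ N := by exact_mod_cast hi
    linarith
  rw [zero_smul, add_zero, Int.cast_zero] at h7
  rw [h7]
  refine h6.trans ?_
  have h11 : K ^ (-s.re) ≤ K ^ (-σ) :=
    Real.rpow_le_rpow_of_exponent_le (by linarith) (by linarith)
  have h12 : Real.exp (4 * ‖s‖) ≤ Real.exp (4 * B) := Real.exp_le_exp.2 (by linarith)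
  have h13 : K ^ ((d : ℝ) - σ - N) = K ^ d * K ^ (-σ) / K ^ N := by
    rw [show (d : ℝ) - σ - N = d + -σ - N by ring, Real.rpow_sub hK0, Real.rpow_add hK0,
      Real.rpow_natCast, Real.rpow_natCast]
  rw [h13, hρ, div_pow]
  rw [div_div_eq_mul_div]
  have h14 : CP * 2 ^ d * Real.exp (4 * B) * (8 * ((N : ℝ) + 1)) ^ N * (K ^ d * K ^ (-σ) / K ^ N) =
      CP * (2 * K) ^ d * (K ^ (-σ) * Real.exp (4 * B)) * (8 * ((N : ℝ) + 1)) ^ N / K ^ N := by
    rw [mul_pow]; ring
  rw [h14]
  apply div_le_div_of_nonneg_right _ (by positivity)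
  apply mul_le_mul_of_nonneg_right _ (by positivity)
  apply mul_le_mul_of_nonneg_left _ (by positivity)
  exact mul_le_mul h11 h12 (by positivity) (by positivity)

end estimate


/-! ### Rapidly decreasing families -/

section rd

variable {n q : ℕ}

lemma rd_bound {b : (Fin q → Fin n → ℤ) → ℂ} (hb : RapidlyDecreasing b) (M : ℕ) :
    ∃ C : ℝ, ∀ l, (∏ i, ∏ j, (1 + |(l i j : ℝ)|) ^ M) * ‖b l‖ ≤ C := by
  choose C hC using fun t : Finset (Fin q × Fin n) => hb (fun i j => if (i, j) ∈ t then M else 0)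
  refine ⟨(∏ _p : Fin q × Fin n, (2 : ℝ) ^ M) * ∑ t ∈ (Finset.univ : Finset (Fin q × Fin n)).powerset, C t,
    fun l => ?_⟩
  have h1 : ∀ t : ℝ, 0 ≤ t → (1 + t) ^ M ≤ 2 ^ M * (1 + t ^ M) := by
    intro t ht
    rcases le_total t 1 with h | h
    · calc (1 + t) ^ M ≤ 2 ^ M := pow_le_pow_left₀ (by positivity) (by linarith) M
        _ ≤ 2 ^ M * (1 + t ^ M) := by
            have : (0 : ℝ) ≤ t ^ M := by positivity
            have h2 : (0 : ℝ) < 2 ^ M := by positivity
            nlinarith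
    · calc (1 + t) ^ M ≤ (2 * t) ^ M := pow_le_pow_left₀ (by positivity) (by linarith) M
        _ = 2 ^ M * t ^ M := mul_pow _ _ _
        _ ≤ 2 ^ M * (1 + t ^ M) := by
            apply mul_le_mul_of_nonneg_left _ (by positivity)
            linarith
  rw [← Fintype.prod_prod_type' (fun i j => (1 + |(l i j : ℝ)|) ^ M)]
  calc (∏ p : Fin q × Fin n, (1 + |(l p.1 p.2 : ℝ)|) ^ M) * ‖b l‖
      ≤ (∏ p : Fin q × Fin n, (2 ^ M * (1 + |(l p.1 p.2 : ℝ)| ^ M))) * ‖b l‖ := by
        apply mul_le_mul_of_nonneg_right _ (norm_nonneg _)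
        apply Finset.prod_le_prod
        · intro p _; positivity
        · intro p _; exact h1 _ (abs_nonneg _)
    _ = (∏ _p : Fin q × Fin n, (2 : ℝ) ^ M) *
          ∑ t ∈ (Finset.univ : Finset (Fin q × Fin n)).powerset,
            (∏ p ∈ t, |(l p.1 p.2 : ℝ)| ^ M) * ‖b l‖ := by
        rw [Finset.prod_mul_distrib, Finset.prod_one_add, mul_assoc, Finset.sum_mul]
    _ ≤ _ := by
        apply mul_le_mul_of_nonneg_left _ (by positivity)
        apply Finset.sum_le_sum
        intro t _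
        refine le_trans (le_of_eq ?_) (hC t l)
        congr 1
        rw [← Fintype.prod_prod_type' (fun i j => |(l i j : ℝ)| ^ (if (i, j) ∈ t then M else 0))]
        have : ∀ p : Fin q × Fin n, |(l p.1 p.2 : ℝ)| ^ (if (p.1, p.2) ∈ t then M else 0) =
            if p ∈ t then |(l p.1 p.2 : ℝ)| ^ M else 1 := by
          intro p
          split_ifs <;> simp
        simp only [this]
        rw [Finset.prod_ite_mem, Finset.univ_inter]

lemma one_add_sum_le {ι : Type*} (s : Finset ι) (a : ι → ℝ) (ha : ∀ i, 0 ≤ a i) :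
    1 + ∑ i ∈ s, a i ≤ ∏ i ∈ s, (1 + a i) := by
  classical
  induction s using Finset.induction_on with
  | empty => simp
  | insert i s hi ih =>
    rw [Finset.sum_insert hi, Finset.prod_insert hi]
    have h1 : 0 ≤ ∑ i ∈ s, a i := Finset.sum_nonneg fun i _ => ha i
    have h2 := ha i
    nlinarith

lemma nrm_comb_le (ε : Fin q → ℤ) (hε : ∀ i, |ε i| ≤ 1) (l : Fin q → Fin n → ℤ) :
    1 + nrm (∑ i, ε i • l i) ≤ ∏ i, ∏ j, (1 + |(l i j : ℝ)|) := by
  rw [← Fintype.prod_prod_type' (fun i j => 1 + |(l i j : ℝ)|)]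
  refine le_trans ?_ (one_add_sum_le Finset.univ (fun p : Fin q × Fin n => |(l p.1 p.2 : ℝ)|)
    (fun p => abs_nonneg _))
  have h1 := nrm_le_sum (∑ i, ε i • l i)
  have h2 : ∑ j, |(((∑ i, ε i • l i : Fin n → ℤ) j : ℤ) : ℝ)| ≤
      ∑ p : Fin q × Fin n, |(l p.1 p.2 : ℝ)| := by
    rw [Fintype.sum_prod_type_right]
    apply Finset.sum_le_sum
    intro j _
    rw [Finset.sum_apply]
    push_cast
    refine (Finset.abs_sum_le_sum_abs _ _).trans (Finset.sum_le_sum fun i _ => ?_)
    simp only [Pi.smul_apply, smul_eq_mul]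
    push_cast
    rw [abs_mul]
    have h3 : |(ε i : ℝ)| ≤ 1 := by exact_mod_cast hε i
    have h4 : 0 ≤ |(l i j : ℝ)| := abs_nonneg _
    nlinarith
  linarith

lemma rd_summable {b : (Fin q → Fin n → ℤ) → ℂ} (hb : RapidlyDecreasing b) (m : ℕ)
    (ε : Fin q → ℤ) (hε : ∀ i, |ε i| ≤ 1) :
    Summable fun l => (1 + nrm (∑ i, ε i • l i)) ^ m * ‖b l‖ := by
  obtain ⟨C, hC⟩ := rd_bound hb (m + 2)
  have hs1 := summable_int (t := 2) (by norm_num)
  have hs2 := summable_pi _ hs1 (fun m => by positivity) n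
  have hs3 := summable_pi _ hs2 (fun m => Finset.prod_nonneg fun i _ => by positivity) q
  refine Summable.of_nonneg_of_le (fun l => ?_) (fun l => ?_) (hs3.mul_left C)
  · have := nrm_nonneg (∑ i, ε i • l i)
    positivity
  · have h1 := nrm_comb_le ε hε l
    have h0 : 0 ≤ nrm (∑ i, ε i • l i) := nrm_nonneg _
    have h2 : (1 + nrm (∑ i, ε i • l i)) ^ m ≤ ∏ i, ∏ j, (1 + |(l i j : ℝ)|) ^ m := by
      refine (pow_le_pow_left₀ (by positivity) h1 m).trans (le_of_eq ?_)
      rw [← Finset.prod_pow]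
      apply Finset.prod_congr rfl
      intro i _
      rw [Finset.prod_pow]
    have h3 : ∏ i, ∏ j, (1 + |(l i j : ℝ)|) ^ m =
        (∏ i, ∏ j, (1 + |(l i j : ℝ)|) ^ (m + 2)) * ∏ i, ∏ j, (1 + |(l i j : ℝ)|) ^ (-(2 : ℝ)) := by
      rw [← Finset.prod_mul_distrib]
      apply Finset.prod_congr rfl
      intro i _
      rw [← Finset.prod_mul_distrib]
      apply Finset.prod_congr rfl
      intro j _
      have h4 : 0 < 1 + |(l i j : ℝ)| := by positivity
      rw [Real.rpow_neg h4.le]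
      have h5 : (1 + |(l i j : ℝ)|) ^ (2 : ℝ) = (1 + |(l i j : ℝ)|) ^ 2 := by
        rw [← Real.rpow_natCast]; norm_num
      rw [h5, pow_add]
      field_simp
    have h6 : 0 ≤ ∏ i, ∏ j, (1 + |(l i j : ℝ)|) ^ (-(2 : ℝ)) :=
      Finset.prod_nonneg fun i _ => Finset.prod_nonneg fun j _ => by positivity
    calc (1 + nrm (∑ i, ε i • l i)) ^ m * ‖b l‖
        ≤ (∏ i, ∏ j, (1 + |(l i j : ℝ)|) ^ m) * ‖b l‖ :=
          mul_le_mul_of_nonneg_right h2 (norm_nonneg _)
      _ = ((∏ i, ∏ j, (1 + |(l i j : ℝ)|) ^ (m + 2)) * ‖b l‖) *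
            ∏ i, ∏ j, (1 + |(l i j : ℝ)|) ^ (-(2 : ℝ)) := by
          rw [h3]; ring
      _ ≤ C * ∏ i, ∏ j, (1 + |(l i j : ℝ)|) ^ (-(2 : ℝ)) :=
          mul_le_mul_of_nonneg_right (hC l) h6

end rd

/-! ### Gluing -/

lemma glue {A : ℝ} (g : ℂ → ℂ) (G : ℕ → ℂ → ℂ)
    (hG : ∀ N : ℕ, DifferentiableOn ℂ (G N) {s : ℂ | A - N < s.re})
    (hg : ∀ (N : ℕ) (s : ℂ), A < s.re → G N s = g s) :
    ∃ H : ℂ → ℂ, Differentiable ℂ H ∧ ∀ s : ℂ, A < s.re → H s = g s := by
  have hopen : ∀ N : ℕ, IsOpen {s : ℂ | A - N < s.re} := fun N =>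
    isOpen_lt continuous_const Complex.continuous_re
  have key : ∀ M N : ℕ, M ≤ N → ∀ s : ℂ, A - M < s.re → G M s = G N s := by
    intro M N hMN s hs
    have hMN' : (M : ℝ) ≤ N := by exact_mod_cast hMN
    have hsub : {s : ℂ | A - M < s.re} ⊆ {s : ℂ | A - N < s.re} := fun z hz => by
      have hz' : A - M < z.re := hz
      show A - N < z.re
      linarith
    have h1 : AnalyticOnNhd ℂ (G M) {s : ℂ | A - M < s.re} := (hG M).analyticOnNhd (hopen M)
    have h2 : AnalyticOnNhd ℂ (G N) {s : ℂ | A - M < s.re} :=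
      ((hG N).mono hsub).analyticOnNhd (hopen M)
    have hconv : Convex ℝ {s : ℂ | A - M < s.re} := convex_halfSpace_re_gt _
    have hz0 : ((A + 1 : ℝ) : ℂ) ∈ {s : ℂ | A - M < s.re} := by
      show A - M < ((A + 1 : ℝ) : ℂ).re
      rw [Complex.ofReal_re]
      have : (0 : ℝ) ≤ M := by positivity
      linarith
    refine h1.eqOn_of_preconnected_of_eventuallyEq h2 hconv.isPreconnected hz0 ?_ hs
    have hopen' : IsOpen {s : ℂ | A < s.re} := isOpen_lt continuous_const Complex.continuous_re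
    filter_upwards [hopen'.mem_nhds (show A < ((A + 1 : ℝ) : ℂ).re by
      rw [Complex.ofReal_re]; linarith)] with z hz
    rw [hg M z hz, hg N z hz]
  have key2 : ∀ M N : ℕ, ∀ s : ℂ, A - M < s.re → A - N < s.re → G M s = G N s := by
    intro M N s h1 h2
    rcases le_total M N with h | h
    · exact key M N h s h1
    · exact (key N M h s h2).symm
  set ν : ℂ → ℕ := fun s => ⌈A - s.re⌉₊ + 1 with hν
  have hνs : ∀ s : ℂ, A - ν s < s.re := by
    intro s
    have := Nat.le_ceil (A - s.re)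
    rw [hν]
    push_cast
    linarith
  refine ⟨fun s => G (ν s) s, ?_, ?_⟩
  · intro s
    have h1 : (fun z => G (ν z) z) =ᶠ[𝓝 s] G (ν s) := by
      filter_upwards [(hopen (ν s)).mem_nhds (hνs s)] with z hz
      exact key2 _ _ z (hνs z) hz
    exact ((hG (ν s)).differentiableAt ((hopen (ν s)).mem_nhds (hνs s))).congr_of_eventuallyEq h1
  · intro s hs
    exact hg _ s hs


/-! ### The inner sums -/

section inner

variable {n : ℕ}

/-- the inner sum after `N` summations by parts in the direction `j` -/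
noncomputable def inner (N : ℕ) (P : MvPolynomial (Fin n) ℂ) (j : Fin n) (a : Fin n → ℝ)
    (s : ℂ) : ℂ := ∑' k, (D j)^[N] (gs P s) k * ee a k

lemma gs_diff (P : MvPolynomial (Fin n) ℂ) (k : Fin n → ℤ) :
    Differentiable ℂ fun s => gs P s k := by
  unfold gs
  by_cases hk : k = 0
  · simp only [hk, if_true]
    exact differentiable_const _
  · simp only [hk, if_false]
    have hpos : 0 < nrm k := by
      have := one_le_nrm hk
      linarith
    have hne : (nrm k : ℂ) ≠ 0 := by exact_mod_cast hpos.ne'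
    apply Differentiable.mul (differentiable_const _)
    intro s
    exact (differentiable_neg s).const_cpow (Or.inl hne)

lemma D_iter_diff (P : MvPolynomial (Fin n) ℂ) (j : Fin n) (N : ℕ) :
    ∀ k, Differentiable ℂ fun s => (D j)^[N] (gs P s) k := by
  induction N with
  | zero => exact gs_diff P
  | succ N ih =>
    intro k
    have : (fun s => (D j)^[N + 1] (gs P s) k) =
        fun s => (D j)^[N] (gs P s) k - (D j)^[N] (gs P s) (k - Pi.single j 1) := by
      funext s
      rw [Function.iterate_succ_apply']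
      rfl
    rw [this]
    exact (ih _).sub (ih _)

lemma inner_bound (hn : 1 ≤ n) (P : MvPolynomial (Fin n) ℂ) {d : ℕ} (hP : P.IsHomogeneous d)
    (N : ℕ) {σ B : ℝ} (hσ : (n : ℝ) + d - N < σ) :
    ∃ A : ℝ, 0 ≤ A ∧ ∀ (j : Fin n) (a : Fin n → ℝ),
      DifferentiableOn ℂ (inner N P j a) {s : ℂ | σ < s.re ∧ ‖s‖ < B} ∧
      ∀ s : ℂ, σ < s.re → ‖s‖ < B → ‖inner N P j a s‖ ≤ A := by
  obtain ⟨C, hC, hest⟩ := main_est P hP N σ B
  set R : ℝ := 8 * ((N : ℝ) + 1) with hR
  set h : (Fin n → ℤ) → ℝ := fun k =>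
    if k = 0 then 0 else ‖MvPolynomial.eval (fun i => (k i : ℂ)) P‖ * nrm k ^ B with hh
  have hgh : ∀ s : ℂ, ‖s‖ < B → ∀ k, ‖gs P s k‖ ≤ h k := by
    intro s hs k
    rw [hh]
    unfold gs
    by_cases hk : k = 0
    · simp [hk]
    · simp only [hk, if_false]
      have h1 := one_le_nrm hk
      have hpos : 0 < nrm k := by linarith
      rw [norm_mul]
      apply mul_le_mul_of_nonneg_left _ (norm_nonneg _)
      rw [Complex.norm_cpow_eq_rpow_re_of_pos hpos]
      apply Real.rpow_le_rpow_of_exponent_le h1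
      have h2 := Complex.abs_re_le_norm s
      have h3 := neg_abs_le s.re
      rw [Complex.neg_re]
      linarith
  set u : Fin n → (Fin n → ℤ) → ℝ := fun j k =>
    (if nrm k ≤ R then |(T j)^[N] h k| else 0) +
      C * (if k = 0 then 0 else nrm k ^ (-(σ + N - d))) with hu
  have hus : ∀ j, Summable (u j) := by
    intro j
    apply Summable.add
    · apply summable_of_hasFiniteSupport
      refine (finite_nrm_le (n := n) R).subset fun k hk => ?_
      by_contra hcon
      apply hk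
      have : ¬ nrm k ≤ R := hcon
      simp [this]
    · exact (summable_nrm hn (by linarith)).mul_left C
  have hu0 : ∀ j k, 0 ≤ u j k := by
    intro j k
    rw [hu]
    simp only
    have h1 : 0 ≤ (if nrm k ≤ R then |(T j)^[N] h k| else 0) := by
      split_ifs
      · exact abs_nonneg _
      · exact le_rfl
    have h2 : 0 ≤ (if k = 0 then (0 : ℝ) else nrm k ^ (-(σ + N - d))) := by
      split_ifs
      · exact le_rfl
      · exact Real.rpow_nonneg (nrm_nonneg k) _
    positivity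
  have hle : ∀ (j : Fin n) (s : ℂ), σ < s.re → ‖s‖ < B → ∀ k, ‖(D j)^[N] (gs P s) k‖ ≤ u j k := by
    intro j s hs hsB k
    rw [hu]
    simp only
    have h2 : 0 ≤ (if k = 0 then (0 : ℝ) else nrm k ^ (-(σ + N - d))) := by
      split_ifs
      · exact le_rfl
      · exact Real.rpow_nonneg (nrm_nonneg k) _
    by_cases hk : nrm k ≤ R
    · rw [if_pos hk]
      have h3 := D_iter_le j (hgh s hsB) N k
      have h4 := le_abs_self ((T j)^[N] h k)
      have h5 := mul_nonneg hC h2
      linarith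
    · rw [if_neg hk, zero_add]
      have hk' : R < nrm k := not_le.1 hk
      have hk0 : k ≠ 0 := by
        rintro rfl
        have : nrm (0 : Fin n → ℤ) = 0 := by simp [nrm]
        rw [this] at hk'
        have : (0 : ℝ) ≤ N := by positivity
        linarith
      rw [if_neg hk0, show -(σ + N - d) = (d : ℝ) - σ - N by ring]
      exact hest s hs.le hsB.le j k hk'
  have hle' : ∀ (j : Fin n) (a : Fin n → ℝ) (s : ℂ), σ < s.re → ‖s‖ < B → ∀ k,
      ‖(D j)^[N] (gs P s) k * ee a k‖ ≤ u j k := by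
    intro j a s hs hsB k
    rw [norm_mul, norm_ee, mul_one]
    exact hle j s hs hsB k
  refine ⟨∑ j, ∑' k, u j k, Finset.sum_nonneg fun j _ => tsum_nonneg (hu0 j), ?_⟩
  intro j a
  constructor
  · unfold inner
    refine Complex.differentiableOn_tsum_of_summable_norm (hus j) (fun k => ?_) ?_ ?_
    · exact ((D_iter_diff P j N k).mul (differentiable_const _)).differentiableOn
    · exact (isOpen_lt continuous_const Complex.continuous_re).inter
        (isOpen_lt continuous_norm continuous_const)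
    · intro k s hs
      exact hle' j a s hs.1 hs.2 k
  · intro s hs hsB
    have h1 : ‖inner N P j a s‖ ≤ ∑' k, u j k :=
      tsum_of_norm_bounded (hus j).hasSum (hle' j a s hs hsB)
    refine h1.trans ?_
    exact Finset.single_le_sum (f := fun j => ∑' k, u j k) (fun j _ => tsum_nonneg (hu0 j))
      (Finset.mem_univ j)

lemma gs_summable (hn : 1 ≤ n) (P : MvPolynomial (Fin n) ℂ) {d : ℕ} (hP : P.IsHomogeneous d)
    {s : ℂ} (hs : (n : ℝ) + d < s.re) : Summable (gs P s) := by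
  obtain ⟨C, hC, hb⟩ := poly_bound P hP
  have h1 := (summable_nrm (n := n) hn (r := s.re - d) (by linarith)).mul_left C
  refine Summable.of_norm_bounded h1 fun k => ?_
  unfold gs
  by_cases hk : k = 0
  · simp [hk]
  · simp only [hk, if_false]
    have h1 := one_le_nrm hk
    have hpos : 0 < nrm k := by linarith
    rw [norm_mul, Complex.norm_cpow_eq_rpow_re_of_pos hpos, Complex.neg_re]
    have h2 := hb (fun i => (k i : ℂ)) (nrm k) hpos.le (fun i => by
      rw [Complex.norm_intCast]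
      exact abs_le_nrm k i)
    have h3 : nrm k ^ (-(s.re - d)) = nrm k ^ d * nrm k ^ (-s.re) := by
      rw [show -(s.re - d) = (d : ℝ) + -s.re by ring, Real.rpow_add hpos, Real.rpow_natCast]
    rw [h3, ← mul_assoc]
    exact mul_le_mul_of_nonneg_right h2 (Real.rpow_nonneg hpos.le _)

lemma f_eq (P : MvPolynomial (Fin n) ℂ) (a : Fin n → ℝ) (s : ℂ) :
    f P a s = ∑' k, gs P s k * ee a k := by
  unfold f
  apply tsum_congr
  intro k
  unfold gs ee
  by_cases hk : k = 0
  · simp [hk]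
  · simp only [hk, if_false]

end inner

/-! ### The sufficient condition -/

/-- A Diophantine condition weaker than bad approximability: for every integer vector `w ≠ 0` some
coordinate of `Θ w` stays away from the integers, polynomially in `|w|`. -/
def Dio {n : ℕ} (Θ : Matrix (Fin n) (Fin n) ℝ) : Prop :=
  ∃ c : ℝ, 0 < c ∧ ∃ δ : ℕ, ∀ w : Fin n → ℤ, w ≠ 0 → ∃ j : Fin n,
    c ≤ ‖1 - exp (2 * Real.pi * I * (Θ.mulVec (fun i => (w i : ℝ)) j : ℝ))‖ * (1 + nrm w) ^ δ

theorem propertyH_of_dio {n : ℕ} (hn : 1 ≤ n) (Θ : Matrix (Fin n) (Fin n) ℝ) (h : Dio Θ) :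
    PropertyH Θ := by
  intro q _ d P hP b hb ε hε
  obtain ⟨c, hc, δ, hd⟩ := h
  have hex : ∀ w : Fin n → ℤ, ∃ j : Fin n, w ≠ 0 →
      c ≤ ‖1 - exp (2 * Real.pi * I * (Θ.mulVec (fun i => (w i : ℝ)) j : ℝ))‖ * (1 + nrm w) ^ δ := by
    intro w
    by_cases hw : w = 0
    · exact ⟨⟨0, hn⟩, fun h => absurd hw h⟩
    · obtain ⟨j, hj⟩ := hd w hw
      exact ⟨j, fun _ => hj⟩
  choose J hJ using hex
  have hε1 : ∀ i, |ε i| ≤ 1 := by
    intro i
    rcases hε i with h | h | h <;> rw [h] <;> norm_num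
  set w : (Fin q → Fin n → ℤ) → (Fin n → ℤ) := fun l => ∑ i, ε i • l i with hw
  set a : (Fin q → Fin n → ℤ) → (Fin n → ℝ) := fun l =>
    Θ.mulVec (fun j => ((w l j : ℤ) : ℝ)) with ha
  set E : (Fin q → Fin n → ℤ) → ℂ := fun l => 1 - exp (2 * Real.pi * I * (a l (J (w l)) : ℝ)) with hE
  have hEbound : ∀ l, w l ≠ 0 → c ≤ ‖E l‖ * (1 + nrm (w l)) ^ δ := fun l hl => hJ (w l) hl
  have hE0 : ∀ l, w l ≠ 0 → E l ≠ 0 := by
    intro l hl h0
    have := hEbound l hl
    rw [h0, norm_zero, zero_mul] at this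
    linarith
  set coef : ℕ → (Fin q → Fin n → ℤ) → ℂ := fun N l =>
    if w l = 0 then 0 else b l * ((E l) ^ N)⁻¹ with hcoef
  have hcoefs : ∀ N, Summable fun l => ‖coef N l‖ := by
    intro N
    refine Summable.of_nonneg_of_le (fun l => norm_nonneg _) (fun l => ?_)
      ((rd_summable hb (δ * N) ε hε1).mul_left ((c ^ N)⁻¹))
    rw [hcoef]
    simp only
    have h0 : 0 ≤ nrm (∑ i, ε i • l i) := nrm_nonneg _
    by_cases hl : w l = 0
    · rw [if_pos hl, norm_zero]
      positivity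
    · rw [if_neg hl, norm_mul, norm_inv, norm_pow]
      have h1 := hEbound l hl
      have h2 : 0 < ‖E l‖ := norm_pos_iff.2 (hE0 l hl)
      have h3 : (‖E l‖ ^ N)⁻¹ ≤ (c ^ N)⁻¹ * (1 + nrm (w l)) ^ (δ * N) := by
        rw [inv_mul_eq_div, le_div_iff₀ (by positivity), inv_mul_le_iff₀ (by positivity), pow_mul,
          ← mul_pow]
        exact pow_le_pow_left₀ hc.le h1 N
      calc ‖b l‖ * (‖E l‖ ^ N)⁻¹ ≤ ‖b l‖ * ((c ^ N)⁻¹ * (1 + nrm (w l)) ^ (δ * N)) :=
            mul_le_mul_of_nonneg_left h3 (norm_nonneg _)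
        _ = (c ^ N)⁻¹ * ((1 + nrm (∑ i, ε i • l i)) ^ (δ * N) * ‖b l‖) := by
            rw [hw]; ring
  apply glue (g0 Θ P b ε) (fun N s => ∑' l, coef N l * inner N P (J (w l)) (a l) s)
  · intro N s₁ hs₁
    have hs₁' : (n : ℝ) + d - N < s₁.re := hs₁
    obtain ⟨σ, hσ1, hσ2⟩ := exists_between hs₁'
    obtain ⟨A, hA, hin⟩ := inner_bound hn P hP N (B := ‖s₁‖ + 1) hσ1
    apply DifferentiableAt.differentiableWithinAt
    have hopen : IsOpen {s : ℂ | σ < s.re ∧ ‖s‖ < ‖s₁‖ + 1} :=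
      (isOpen_lt continuous_const Complex.continuous_re).inter
        (isOpen_lt continuous_norm continuous_const)
    have hdiff : DifferentiableOn ℂ (fun s => ∑' l, coef N l * inner N P (J (w l)) (a l) s)
        {s : ℂ | σ < s.re ∧ ‖s‖ < ‖s₁‖ + 1} := by
      refine Complex.differentiableOn_tsum_of_summable_norm ((hcoefs N).mul_right A)
        (fun l => ?_) hopen ?_
      · exact (differentiableOn_const _).mul (hin _ _).1
      · intro l s hs
        rw [norm_mul]
        exact mul_le_mul_of_nonneg_left ((hin _ _).2 s hs.1 hs.2) (norm_nonneg _)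
    exact hdiff.differentiableAt (hopen.mem_nhds ⟨hσ2, by linarith⟩)
  · intro N s hs
    unfold g0
    apply tsum_congr
    intro l
    rw [hcoef]
    simp only
    by_cases hl : w l = 0
    · rw [if_pos hl, zero_mul]
      rw [hw] at hl
      rw [if_pos hl]
    · rw [if_neg hl]
      have hl' : ¬ (∑ i, ε i • l i = 0) := hl
      rw [if_neg hl']
      have h1 := (sbp_iter (J (w l)) (a l) (gs_summable hn P hP hs) N).2
      have h2 : inner N P (J (w l)) (a l) s = (E l) ^ N * f P (a l) s := by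
        rw [f_eq]
        exact h1
      rw [h2, mul_assoc, inv_mul_cancel_left₀ (pow_ne_zero _ (hE0 l hl))]

/-! ### The examples -/

lemma norm_one_sub_exp (t : ℝ) : ‖1 - exp (2 * Real.pi * I * (t : ℝ))‖ = 2 * |Real.sin (Real.pi * t)| := by
  rw [norm_sub_rev]
  have h := Complex.norm_exp_I_mul_ofReal_sub_one (x := 2 * Real.pi * t)
  have e1 : 2 * Real.pi * I * ((t : ℝ) : ℂ) = I * ((2 * Real.pi * t : ℝ) : ℂ) := by
    push_cast; ring
  rw [e1, h, Real.norm_eq_abs, abs_mul, abs_two]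
  congr 3
  ring

lemma sin_pi_ge (t : ℝ) : 2 * |t - round t| ≤ |Real.sin (Real.pi * t)| := by
  have hπ := Real.pi_pos
  have h1 : |Real.sin (Real.pi * t)| = |Real.sin (Real.pi * (t - round t))| := by
    rw [show Real.pi * (t - round t) = Real.pi * t - (round t : ℤ) * Real.pi by ring,
      Real.sin_sub_int_mul_pi]
    rw [abs_mul]
    simp
  rw [h1]
  have h2 := abs_sub_round t
  have h3 := Real.mul_abs_le_abs_sin (x := Real.pi * (t - round t)) (by
    rw [abs_mul, abs_of_pos hπ]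
    nlinarith)
  rw [abs_mul, abs_of_pos hπ] at h3
  have h4 : 2 / Real.pi * (Real.pi * |t - round t|) = 2 * |t - round t| := by field_simp
  linarith

lemma sqrt_two_dist (m : ℤ) (hm : m ≠ 0) (p : ℤ) :
    1 / (4 * (1 + |(m : ℝ)|)) ≤ |Real.sqrt 2 * m - p| := by
  have hs2 : Real.sqrt 2 ^ 2 = 2 := Real.sq_sqrt (by norm_num)
  have hs0 : 0 < Real.sqrt 2 := by positivity
  have hs15 : Real.sqrt 2 < 3 / 2 := by nlinarith
  have hm1 : (1 : ℝ) ≤ |(m : ℝ)| := by exact_mod_cast Int.one_le_abs hm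
  have hne : 2 * m ^ 2 - p ^ 2 ≠ 0 := by
    intro h
    have hirr : Irrational (Real.sqrt 2 * m) := irrational_sqrt_two.mul_intCast hm
    have h1 : (Real.sqrt 2 * m - p) * (Real.sqrt 2 * m + p) = 0 := by
      have h2 : (2 * (m : ℝ) ^ 2 - (p : ℝ) ^ 2) = 0 := by exact_mod_cast h
      nlinarith
    rcases mul_eq_zero.1 h1 with h2 | h2
    · exact hirr ⟨p, by push_cast; linarith⟩
    · exact hirr ⟨-p, by push_cast; linarith⟩
  have h1 : (1 : ℝ) ≤ |2 * (m : ℝ) ^ 2 - (p : ℝ) ^ 2| := by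
    exact_mod_cast Int.one_le_abs hne
  have h2 : 2 * (m : ℝ) ^ 2 - (p : ℝ) ^ 2 = (Real.sqrt 2 * m - p) * (Real.sqrt 2 * m + p) := by
    nlinarith
  rw [h2, abs_mul] at h1
  rcases le_or_gt 1 |Real.sqrt 2 * m - p| with h3 | h3
  · refine le_trans ?_ h3
    rw [div_le_one (by positivity)]
    linarith
  · have h4 : |Real.sqrt 2 * m + p| ≤ 4 * (1 + |(m : ℝ)|) := by
      have h5 : Real.sqrt 2 * m + p = 2 * (Real.sqrt 2 * m) - (Real.sqrt 2 * m - p) := by ring
      have h6 := abs_sub (2 * (Real.sqrt 2 * m)) (Real.sqrt 2 * m - p)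
      rw [← h5, abs_mul, abs_mul, abs_two, abs_of_pos hs0] at h6
      nlinarith
    rw [div_le_iff₀ (by positivity)]
    have h7 : 0 ≤ |Real.sqrt 2 * m - p| := abs_nonneg _
    nlinarith

lemma exp_sqrt_two (m : ℤ) (hm : m ≠ 0) :
    1 / (1 + |(m : ℝ)|) ≤ ‖1 - exp (2 * Real.pi * I * ((Real.sqrt 2 * m : ℝ) : ℝ))‖ := by
  rw [norm_one_sub_exp]
  have h1 := sin_pi_ge (Real.sqrt 2 * m)
  have h2 := sqrt_two_dist m hm (round (Real.sqrt 2 * m))
  have h3 : 1 / (1 + |(m : ℝ)|) = 4 * (1 / (4 * (1 + |(m : ℝ)|))) := by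
    field_simp
  rw [h3]
  linarith

lemma dio_of {n : ℕ} (Θ : Matrix (Fin n) (Fin n) ℝ)
    (h : ∀ w : Fin n → ℤ, w ≠ 0 → ∃ (j i : Fin n) (σ : ℤ), (σ = 1 ∨ σ = -1) ∧ w i ≠ 0 ∧
      Θ.mulVec (fun i => (w i : ℝ)) j = Real.sqrt 2 * ((σ * w i : ℤ) : ℝ)) : Dio Θ := by
  refine ⟨1, one_pos, 1, fun w hw => ?_⟩
  obtain ⟨j, i, σ, hσ, hwi, he⟩ := h w hw
  refine ⟨j, ?_⟩
  rw [he]
  have hne : σ * w i ≠ 0 := by
    rcases hσ with h | h <;> rw [h] <;> simpa using hwi
  have h1 := exp_sqrt_two (σ * w i) hne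
  have h2 : |((σ * w i : ℤ) : ℝ)| ≤ nrm w := by
    refine le_trans (le_of_eq ?_) (abs_le_nrm w i)
    rcases hσ with h | h <;> rw [h] <;> simp
  have h3 : 0 ≤ |((σ * w i : ℤ) : ℝ)| := abs_nonneg _
  rw [div_le_iff₀ (by positivity)] at h1
  rw [pow_one]
  refine h1.trans ?_
  apply mul_le_mul_of_nonneg_left _ (norm_nonneg _)
  linarith

lemma not_BA {n : ℕ} (Θ : Matrix (Fin n) (Fin n) ℝ)
    (h : ∀ u : Fin n → ℤ, ∃ v : Fin n → ℤ, v ≠ 0 ∧
      ∑ i, (v i : ℝ) * (Θ.transpose.mulVec (fun i => (u i : ℝ))) i = 0) : ¬ MatBA Θ := by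
  rintro ⟨u, δ, hδ, c, hc, hcon⟩
  obtain ⟨v, hv, hv0⟩ := h u
  have h1 := hcon v hv 0
  rw [hv0] at h1
  simp only [Int.cast_zero, sub_zero, abs_zero] at h1
  have h2 : 0 < nrm v := by
    have := one_le_nrm hv
    linarith
  have h3 : 0 < c * nrm v ^ (-δ) := by positivity
  linarith

/-- In every dimension `n ≥ 2` there is a matrix with property (H) which is not badly
approximable; for `n = 2` it can be taken skew-symmetric. -/
theorem result : (∀ n : ℕ, 2 ≤ n → ∃ Θ : Matrix (Fin n) (Fin n) ℝ, PropertyH Θ ∧ ¬ MatBA Θ) ∧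
    ∃ Θ : Matrix (Fin 2) (Fin 2) ℝ, Θ.transpose = -Θ ∧ PropertyH Θ ∧ ¬ MatBA Θ := by
  constructor
  · intro n hn
    refine ⟨Real.sqrt 2 • (1 : Matrix (Fin n) (Fin n) ℝ), ?_, ?_⟩
    · apply propertyH_of_dio (by omega)
      apply dio_of
      intro w hw
      obtain ⟨i, hi⟩ := Function.ne_iff.1 hw
      refine ⟨i, i, 1, Or.inl rfl, hi, ?_⟩
      rw [Matrix.smul_mulVec, Matrix.one_mulVec]
      simp
    · apply not_BA
      intro u
      set i0 : Fin n := ⟨0, by omega⟩ with hi0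
      set i1 : Fin n := ⟨1, by omega⟩ with hi1
      have h01 : i0 ≠ i1 := by
        intro h
        rw [hi0, hi1] at h
        simp at h
      have hT : ∀ i, ((Real.sqrt 2 • (1 : Matrix (Fin n) (Fin n) ℝ)).transpose.mulVec
          (fun i => (u i : ℝ))) i = Real.sqrt 2 * u i := by
        intro i
        rw [Matrix.transpose_smul, Matrix.transpose_one, Matrix.smul_mulVec, Matrix.one_mulVec]
        simp
      simp only [hT]
      by_cases hu : u i0 = 0
      · refine ⟨Pi.single i0 1, ?_, ?_⟩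
        · intro h
          have := congrFun h i0
          simp at this
        · rw [Finset.sum_eq_single i0]
          · simp [hu]
          · intro i _ hi
            simp [hi]
          · intro h
            exact absurd (Finset.mem_univ _) h
      · refine ⟨fun i => if i = i0 then u i1 else if i = i1 then -(u i0) else 0, ?_, ?_⟩
        · intro h
          have := congrFun h i1
          simp only [h01.symm, if_false, if_true, Pi.zero_apply, neg_eq_zero] at this
          exact hu this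
        · have e : ∀ i : Fin n, (((if i = i0 then u i1 else if i = i1 then -(u i0) else 0 : ℤ)) : ℝ) *
              (Real.sqrt 2 * u i) = (if i = i0 then Real.sqrt 2 * u i1 * u i0 else 0) +
              (if i = i1 then -(Real.sqrt 2 * u i0 * u i1) else 0) := by
            intro i
            by_cases h1 : i = i0
            · have h2 : i ≠ i1 := by rw [h1]; exact h01
              simp only [h1, if_true, h01, if_false, add_zero]
              ring
            · by_cases h2 : i = i1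
              · simp only [h2, h01.symm, if_false, if_true, zero_add]
                push_cast
                ring
              · simp [h1, h2]
          simp only [e]
          rw [Finset.sum_add_distrib, Finset.sum_ite_eq', Finset.sum_ite_eq']
          simp
          ring
  · refine ⟨Real.sqrt 2 • !![0, 1; -1, 0], ?_, ?_, ?_⟩
    · ext i j
      fin_cases i <;> fin_cases j <;> simp
    · apply propertyH_of_dio (by norm_num)
      apply dio_of
      intro w hw
      by_cases h0 : w 0 = 0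
      · have h1 : w 1 ≠ 0 := by
          intro h1
          apply hw
          funext i
          fin_cases i
          · exact h0
          · exact h1
        refine ⟨0, 1, 1, Or.inl rfl, h1, ?_⟩
        simp [Matrix.smul_mulVec, Matrix.mulVec, dotProduct, Fin.sum_univ_two]
      · refine ⟨1, 0, -1, Or.inr rfl, h0, ?_⟩
        simp [Matrix.smul_mulVec, Matrix.mulVec, dotProduct, Fin.sum_univ_two]
    · apply not_BA
      intro u
      by_cases hu : u = 0
      · refine ⟨Pi.single 0 1, ?_, ?_⟩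
        · intro h
          have := congrFun h 0
          simp at this
        · subst hu
          simp [Matrix.mulVec, dotProduct]
      · refine ⟨u, hu, ?_⟩
        simp [Matrix.mulVec, dotProduct, Fin.sum_univ_two]
        ring

end Pool.Agent.Results.MP_6f2e8a_an.NotNecessary
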